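import Pool.Agent.Helper65.HC.Goals

/-!
# Circuits with gates of unbounded fan-in: the parameters (PAR)
-/

namespace Pool.Agent.Helper14.HC

open Pool.Agent.Helper65.LinSpace Pool.Agent.Helper78.Mpc Pool.Agent.Helper28.Ram Finset Filter
open Pool.Agent.Helper65.HC Pool.Agent.Helper65 Pool.Agent.Helper28.Long

theorem par1 (C : ℝ) : ∀ᶠ n : ℕ in atTop, ∀ r s : ℕ, 1 ≤ s →
    (r : ℝ) * s * ((Nat.log 2 n : ℝ) + 1) ^ 3 ≤ C * ((n : ℝ) + 1) ^ 2 →
    (s : ℝ) * ((Nat.log 2 n : ℝ) + 1) ^ 2 ≤ C * ((n : ℝ) + 1) →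
    s ≤ RT.qT n - 1 ∧ s ≤ Pool.Agent.Helper28.Long.ZL n ∧ r < RT.qT n * (RT.qT n / (s + 1)) := by
  obtain ⟨k, hk⟩ := exists_nat_gt |C|
  filter_upwards [ev_ll_ge (4 * k + 4), le_ZL C, eventually_ge_atTop 1] with n hn hZ hn1 r s hs h1 h2
  have hl : ((ll n : ℕ) : ℝ) = (Nat.log 2 n : ℝ) + 1 := by
    unfold ll
    push_cast
    ring
  have hCk : C ≤ k := (le_abs_self C).trans hk.le
  have hl1 : (0 : ℝ) < ll n := by exact_mod_cast ll_pos n
  have hZ2 : s ≤ ZL n := by
    apply hZ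
    rw [← hl] at h2 ⊢
    rw [le_div_iff₀ (by positivity)]
    exact h2
  rw [← hl] at h1 h2
  have e1 : r * s * ll n ^ 3 ≤ k * (n + 1) ^ 2 := by
    have : ((r * s * ll n ^ 3 : ℕ) : ℝ) ≤ ((k * (n + 1) ^ 2 : ℕ) : ℝ) := by
      push_cast
      refine h1.trans ?_
      exact mul_le_mul_of_nonneg_right hCk (by positivity)
    exact_mod_cast this
  have e2 : s * ll n ^ 2 ≤ k * (n + 1) := by
    have : ((s * ll n ^ 2 : ℕ) : ℝ) ≤ ((k * (n + 1) : ℕ) : ℝ) := by
      push_cast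
      refine h2.trans ?_
      exact mul_le_mul_of_nonneg_right hCk (by positivity)
    exact_mod_cast this
  clear h1 h2 hl hl1
  have hq : n + 1 ≤ RT.qT n * ll n := by
    unfold RT.qT
    have := Nat.div_add_mod n (ll n)
    have h3 := Nat.mod_lt n (show ll n > 0 from ll_pos n)
    rw [Nat.add_mul, one_mul, Nat.mul_comm (n / ll n)]
    omega
  have hqT : RT.qT n - 1 = n / ll n := by
    unfold RT.qT
    exact Nat.add_sub_cancel _ _
  have hl0 : 1 ≤ ll n := ll_pos n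
  have e3 : 4 * (s * ll n) ≤ n + 1 := by
    have h4 : (4 * k + 4) * (s * ll n) ≤ ll n * (s * ll n) := Nat.mul_le_mul_right _ hn
    have h5 : ll n * (s * ll n) = s * ll n ^ 2 := by ring
    have h6 : (k + 1) * (4 * (s * ll n)) ≤ (k + 1) * (n + 1) := by
      calc (k + 1) * (4 * (s * ll n)) = (4 * k + 4) * (s * ll n) := by ring
        _ ≤ k * (n + 1) := by omega
        _ ≤ (k + 1) * (n + 1) := Nat.mul_le_mul_right _ (by omega)
    exact Nat.le_of_mul_le_mul_left h6 (by omega)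
  have hsl : 1 ≤ s * ll n := Nat.mul_pos hs hl0
  refine ⟨?_, hZ2, ?_⟩
  · rw [hqT, Nat.le_div_iff_mul_le hl0]
    omega
  · generalize hqq : RT.qT n = q at *
    generalize ll n = l at *
    have e4 : 4 * s ≤ q := by
      have h4 : (4 * s) * l ≤ q * l := by
        calc (4 * s) * l = 4 * (s * l) := by ring
          _ ≤ n + 1 := e3
          _ ≤ q * l := hq
      exact Nat.le_of_mul_le_mul_right h4 hl0
    set d := q / (s + 1) with hd
    have hd1 : 1 ≤ d := by
      rw [hd, Nat.le_div_iff_mul_le (by omega)]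
      omega
    have e5 : q ≤ 4 * s * d := by
      have h4 := Nat.div_add_mod q (s + 1)
      have h5 := Nat.mod_lt q (show s + 1 > 0 by omega)
      rw [← hd] at h4
      have h6 : q < (s + 1) * (d + 1) := by
        rw [Nat.mul_add, Nat.mul_one]
        omega
      have h7 : (s + 1) * (d + 1) ≤ (2 * s) * (2 * d) := Nat.mul_le_mul (by omega) (by omega)
      have h8 : (2 * s) * (2 * d) = 4 * s * d := by ring
      omega
    have hq0 : 1 ≤ q := by omega
    -- `r l ≤ 4 k d q`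
    have e6 : (s * l ^ 2) * (r * l) ≤ (s * l ^ 2) * (4 * k * (d * q)) := by
      calc (s * l ^ 2) * (r * l) = r * s * l ^ 3 := by ring
        _ ≤ k * (n + 1) ^ 2 := e1
        _ ≤ k * (q * l) ^ 2 := Nat.mul_le_mul_left _ (Nat.pow_le_pow_left hq 2)
        _ = k * (q * (q * l ^ 2)) := by ring
        _ ≤ k * ((4 * s * d) * (q * l ^ 2)) :=
            Nat.mul_le_mul_left _ (Nat.mul_le_mul_right _ e5)
        _ = (s * l ^ 2) * (4 * k * (d * q)) := by ring
    have e7 : r * l ≤ 4 * k * (d * q) :=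
      Nat.le_of_mul_le_mul_left e6 (Nat.mul_pos hs (Nat.pow_pos hl0))
    have e8 : r * l < (q * d) * l := by
      have h9 : 1 ≤ d * q := Nat.mul_pos hd1 hq0
      calc r * l ≤ 4 * k * (d * q) := e7
        _ < (4 * k + 4) * (d * q) := by nlinarith
        _ ≤ l * (d * q) := Nat.mul_le_mul_right _ hn
        _ = (q * d) * l := by ring
    exact Nat.lt_of_mul_lt_mul_right e8

theorem par2 (c : ℕ) : ∀ᶠ n : ℕ in atTop, ∀ S ≤ Pool.Agent.Helper28.Long.ZL n,
    c * (4 * S + 6 * (2 * ll n) + 8) ≤ LW n ∧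
    c + LW n + 4 * S + 6 * (2 * ll n) + 8 ≤ 2 ^ (2 * ll n) ∧
    (∀ x : ℕ, Nat.log 2 x = n → 2 ^ (S + 1) ≤ CR x) := by
  filter_upwards [ev_ll_cube (40 * c + 40), ev_lll_ge (8 * c),
    eventually_ge_atTop (c + 20)] with n h1 h2 h3 S hS
  have hl := ll_pos n
  have hLn : LW n ≤ n := Nat.div_le_self _ _
  have hSn : S ≤ n := hS.trans (ZL_le n)
  have hLl : (40 * c + 40) * ll n ≤ LW n := by
    unfold LW
    rw [Nat.le_div_iff_mul_le hl]
    refine le_trans ?_ h1
    calc (40 * c + 40) * ll n * ll n = (40 * c + 40) * (ll n * ll n) := by ring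
      _ ≤ (40 * c + 40) * (ll n * ll n * ll n) :=
        Nat.mul_le_mul_left _ (Nat.le_mul_of_pos_right _ hl)
  refine ⟨?_, ?_, fun x hx => pow_le_CR ?_⟩
  · have h7 : ZL n * ll (ll n) ≤ LW n := Nat.div_mul_le_self _ _
    have h8 : 8 * c * S ≤ LW n := by
      calc 8 * c * S ≤ ll (ll n) * ZL n := Nat.mul_le_mul h2 hS
        _ = ZL n * ll (ll n) := Nat.mul_comm _ _
        _ ≤ LW n := h7
    have h9 : 2 * (c * (4 * S + 6 * (2 * ll n) + 8)) = 8 * c * S + (24 * (c * ll n) + 16 * c) := by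
      ring
    have h10 : 24 * (c * ll n) + 16 * c ≤ (40 * c + 40) * ll n := by nlinarith
    omega
  · have hl2 := lt_two_pow_ll n
    have h7 : (n + 1) * (n + 1) ≤ 2 ^ (2 * ll n) := by
      rw [two_mul, pow_add]
      exact Nat.mul_le_mul hl2 hl2
    refine le_trans ?_ h7
    have h8 : 6 * (2 * ll n) ≤ n := by
      have : 12 * ll n ≤ (40 * c + 40) * ll n := Nat.mul_le_mul_right _ (by omega)
      omega
    nlinarith
  · rw [hx]
    omega

theorem par : PAR_stmt := ⟨par1, par2⟩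

end Pool.Agent.Helper14.HC
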